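import Pool.Agent.U452.WTheta

set_option autoImplicit false

/-!
# Perfect images of weakly `θ`-refinable spaces are weakly `θ`-refinable

This answers Q2 of MP_55e6a3_gt positively, in ZFC and without any separation axioms. (The starting
result `Closed` answers Q1, for arbitrary closed mappings, negatively.) More generally the image
`Y` of a weakly `θ`-refinable space `X` under a closed mapping `f` is weakly `θ`-refinable if for
every `y` the part of the fibre `f⁻¹(y)` outside its interior is compact.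

Idea of the proof. By taking intersections we may assume that the given refinement consists of
families `𝒱 0, 𝒱 1, ...` such that each point is in exactly one member of one of them. The history
of a point `x` is the sequence of the numbers `min 2 (ord (x, 𝒱 n))`; for the lexicographic order
the set of the points whose history is above a given one is open. In a compact set `K` the points
with the lexicographically smallest history, up to its first digit `1` (in place `n`, say), form a
compact set, which is covered by finitely many members of `𝒱 n`, each of which is needed and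
uniquely determined. Remove them from `K` and repeat; this stops after finitely many steps. The
steps give a code from a countable set, and, if the sets chosen in a step are restricted to the
points with large history, exactly one choice of members of the families with this code covers `K`.
-/

namespace Pool.Agent.Results.MP_55e6a3_gt.PerfectImages

open Set Topology Pool.Agent.U452.WT

universe u v

/-- `X` is weakly `θ`-refinable: every open cover `𝒰` has an open refinement `⋃ 𝒱 n` such that for
every `x` there is `n` for which `x` is in at least one and in only finitely many members of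
`𝒱 n`. -/
def WeaklyThetaRefinable (X : Type*) [TopologicalSpace X] : Prop :=
  ∀ 𝒰 : Set (Set X), (∀ U ∈ 𝒰, IsOpen U) → ⋃₀ 𝒰 = univ →
    ∃ 𝒱 : ℕ → Set (Set X), (∀ n, ∀ V ∈ 𝒱 n, IsOpen V ∧ ∃ U ∈ 𝒰, V ⊆ U) ∧
      ∀ x, ∃ n, {V ∈ 𝒱 n | x ∈ V}.Nonempty ∧ {V ∈ 𝒱 n | x ∈ V}.Finite

/-- Perfect mappings: continuous closed surjections with compact fibres. -/
def PerfectMapping {X : Type u} {Y : Type v} [TopologicalSpace X] [TopologicalSpace Y]
    (f : X → Y) : Prop :=
  Continuous f ∧ Function.Surjective f ∧ (∀ F : Set X, IsClosed F → IsClosed (f '' F)) ∧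
    ∀ y, IsCompact (f ⁻¹' {y})

theorem core {X : Type u} {Y : Type v} [TopologicalSpace X] [TopologicalSpace Y] (f : X → Y)
    (hf : Continuous f) (hs : Function.Surjective f)
    (hcl : ∀ F : Set X, IsClosed F → IsClosed (f '' F))
    (hK : ∀ y, IsCompact (f ⁻¹' {y} \ interior (f ⁻¹' {y})))
    (hX : WeaklyThetaRefinable X) : WeaklyThetaRefinable Y := by
  classical
  intro 𝒰 h𝒰 hcov
  obtain ⟨𝒱, hV1, hV2⟩ := hX ((fun U => f ⁻¹' U) '' 𝒰)
    (by rintro _ ⟨U, hU, rfl⟩; exact (h𝒰 U hU).preimage hf)
    (by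
      refine eq_univ_of_forall fun x => ?_
      have : f x ∈ ⋃₀ 𝒰 := by rw [hcov]; trivial
      obtain ⟨U, hU, hxU⟩ := this
      exact ⟨f ⁻¹' U, ⟨U, hU, rfl⟩, hxU⟩)
  -- the families of intersections
  set A : ℕ → Set (Finset (Set X)) := fun k =>
    {s | (↑s : Set (Set X)) ⊆ 𝒱 k.unpair.1 ∧ s.card = k.unpair.2 + 1} with hA
  set G : Finset (Set X) → Set X := fun s => ⋂₀ (↑s : Set (Set X)) with hG
  have hGo : ∀ n, ∀ s ∈ A n, IsOpen (G s) := fun n s hs =>
    s.finite_toSet.isOpen_sInter fun V hV => (hV1 _ V (hs.1 hV)).1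
  have hex : ∀ x, ∃ n, h A G n x = 1 := by
    intro x
    obtain ⟨n, hne, hfin⟩ := hV2 x
    set s₀ := hfin.toFinset with hs₀
    have hpos : 0 < s₀.card := Finset.card_pos.2 (by
      obtain ⟨V, hV⟩ := hne
      exact ⟨V, by rw [hs₀, Finite.mem_toFinset]; exact hV⟩)
    refine ⟨Nat.pair n (s₀.card - 1), (h_eq_one A G).2 ⟨⟨s₀, ⟨?_, ?_⟩, ?_⟩, ?_⟩⟩
    · intro V hV
      rw [hs₀, Finite.coe_toFinset] at hV
      simp only [Nat.unpair_pair]
      exact hV.1
    · simp only [Nat.unpair_pair]
      omega
    · intro V hV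
      rw [hs₀, Finite.coe_toFinset] at hV
      exact hV.2
    · have key : ∀ s ∈ A (Nat.pair n (s₀.card - 1)), x ∈ G s → s = s₀ := by
        rintro s ⟨h1, h2⟩ hxs
        simp only [Nat.unpair_pair] at h1 h2
        refine Finset.eq_of_subset_of_card_le ?_ (by omega)
        intro V hV
        rw [hs₀, Finite.mem_toFinset]
        exact ⟨h1 hV, hxs V hV⟩
      rintro ⟨s, hs, t, ht, hst, hxs, hxt⟩
      exact hst ((key s hs hxs).trans (key t ht hxt).symm)
  have hu : ∀ s : Finset (Set X), ∃ U : Set Y, (∃ k, s ∈ A k) → U ∈ 𝒰 ∧ G s ⊆ f ⁻¹' U := by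
    intro s
    by_cases hs : ∃ k, s ∈ A k
    · obtain ⟨k, h1, h2⟩ := hs
      obtain ⟨V, hV⟩ := Finset.card_pos.1 (show 0 < s.card by omega)
      obtain ⟨-, _, ⟨U, hU, rfl⟩, hVU⟩ := hV1 _ V (h1 hV)
      exact ⟨U, fun _ => ⟨hU, (sInter_subset_of_mem hV).trans hVU⟩⟩
    · exact ⟨∅, fun h => absurd h hs⟩
  choose u hu using hu
  -- the interior points of the fibres
  set I : Set X := ⋃ y, interior (f ⁻¹' {y}) with hI
  have hIo : IsOpen I := isOpen_iUnion fun _ => isOpen_interior
  have hIy : ∀ y, f ⁻¹' {y} \ I = f ⁻¹' {y} \ interior (f ⁻¹' {y}) := by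
    intro y
    ext x
    constructor
    · rintro ⟨h1, h2⟩
      exact ⟨h1, fun h3 => h2 (mem_iUnion.2 ⟨y, h3⟩)⟩
    · rintro ⟨h1, h2⟩
      refine ⟨h1, fun h3 => h2 ?_⟩
      obtain ⟨y', hy'⟩ := mem_iUnion.1 h3
      have h4' : x ∈ f ⁻¹' {y'} := interior_subset hy'
      have h4 : f x = y' := h4'
      have h5 : f x = y := h1
      rw [← h5, h4]
      exact hy'
  have hopen : ∀ O : Set X, IsOpen O → IsOpen {y | f ⁻¹' {y} ⊆ O} := by
    intro O hO
    have : {y | f ⁻¹' {y} ⊆ O} = (f '' Oᶜ)ᶜ := by
      ext y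
      simp only [mem_ofPred_eq, mem_compl_iff, mem_image, not_exists, not_and]
      constructor
      · intro h1 x hx hxy
        exact hx (h1 hxy)
      · intro h1 x hx
        by_contra h2
        exact h1 x h2 hx
    rw [this]
    exact (hcl _ hO.isClosed_compl).isOpen_compl
  obtain ⟨e, he⟩ := exists_surjective_nat (List (ℕ × ℕ × ℕ))
  refine ⟨fun n => Nat.rec {W | ∃ y, W = {y} ∧ IsOpen W}
    (fun m _ => {W | ∃ (S : Finset (Finset (Set X))) (T : List (Finset (Finset (Set X)))),
      Tup A (e m) (S :: T) ∧ ∃ i ∈ S, W = {y | f ⁻¹' {y} ⊆ GG A G (e m) (S :: T) ∪ I} ∩ u i}) n,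
    ?_, ?_⟩
  · intro n
    cases n with
    | zero =>
      rintro W ⟨y, rfl, hy⟩
      have : y ∈ ⋃₀ 𝒰 := by rw [hcov]; trivial
      obtain ⟨U, hU, hyU⟩ := this
      exact ⟨hy, U, hU, singleton_subset_iff.2 hyU⟩
    | succ m =>
      rintro W ⟨S, T, hST, i, hi, rfl⟩
      have hiA : ∃ k, i ∈ A k := by
        have hST2 : List.Forall₂ (fun (t : ℕ × ℕ × ℕ) (S : Finset (Finset (Set X))) =>
            (↑S : Set (Finset (Set X))) ⊆ A t.1 ∧ S.card = t.2.2) (e m) (S :: T) := hST
        rcases List.forall₂_cons_right_iff.1 hST2 with ⟨t, σ, h1, -, -⟩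
        exact ⟨t.1, h1.1 hi⟩
      exact ⟨(hopen _ ((open_GG A G hGo hST).union hIo)).inter (h𝒰 _ (hu i hiA).1),
        u i, (hu i hiA).1, inter_subset_right⟩
  · intro y
    have hcomp : IsCompact (f ⁻¹' {y} \ I) := by rw [hIy]; exact hK y
    rcases (f ⁻¹' {y} \ I).eq_empty_or_nonempty with h0 | h0
    · refine ⟨0, ?_⟩
      have hy : IsOpen ({y} : Set Y) := by
        have h1 : f ⁻¹' {y} ⊆ interior (f ⁻¹' {y}) := by
          rw [hIy] at h0
          exact sdiff_eq_empty.1 h0
        have h2 : IsOpen (f ⁻¹' {y}) := by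
          rw [subset_antisymm h1 interior_subset]
          exact isOpen_interior
        have h3 : ({y} : Set Y) = {z | f ⁻¹' {z} ⊆ f ⁻¹' {y}} := by
          ext z
          simp only [mem_singleton_iff, mem_ofPred_eq]
          constructor
          · rintro rfl; exact subset_rfl
          · intro h3
            obtain ⟨x, rfl⟩ := hs z
            exact h3 (mem_preimage.2 rfl)
        rw [h3]
        exact hopen _ h2
      refine ⟨⟨{y}, ⟨y, rfl, hy⟩, mem_singleton y⟩, (finite_singleton ({y} : Set Y)).subset ?_⟩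
      rintro _ ⟨⟨z, rfl, -⟩, hz⟩
      rw [mem_singleton_iff.1 hz]
      exact mem_singleton _
    · obtain ⟨σ, ⟨T₀, ⟨hT1, hT2⟩, hT3⟩, hne, -⟩ := all_good A G hGo hex hcomp
      obtain ⟨m, rfl⟩ := he σ
      obtain ⟨S, T, rfl, hSne, hS⟩ := hne T₀ hT1 hT2 h0
      have hiff : ∀ O : Set X, f ⁻¹' {y} \ I ⊆ O ↔ f ⁻¹' {y} ⊆ O ∪ I := by
        intro O
        constructor
        · intro h1 x hx
          by_cases hxI : x ∈ I
          · exact Or.inr hxI
          · exact Or.inl (h1 ⟨hx, hxI⟩)
        · intro h1 x hx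
          exact (h1 hx.1).resolve_right hx.2
      refine ⟨m + 1, ?_, ?_⟩
      · obtain ⟨i, hi⟩ := hSne
        refine ⟨_, ⟨S, T, hT1, i, hi, rfl⟩, (hiff _).1 hT2, ?_⟩
        have hiA : ∃ k, i ∈ A k := by
          have hST2 : List.Forall₂ (fun (t : ℕ × ℕ × ℕ) (S : Finset (Finset (Set X))) =>
              (↑S : Set (Finset (Set X))) ⊆ A t.1 ∧ S.card = t.2.2) (e m) (S :: T) := hT1
          rcases List.forall₂_cons_right_iff.1 hST2 with ⟨t, σ, h1, -, -⟩
          exact ⟨t.1, h1.1 hi⟩
        obtain ⟨x, hx1, hx2, -⟩ := hS i hi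
        have := (hu i hiA).2 hx1
        rw [mem_preimage, show f x = y from hx2] at this
        exact this
      · refine (S.finite_toSet.image
          (fun i => {y | f ⁻¹' {y} ⊆ GG A G (e m) (S :: T) ∪ I} ∩ u i)).subset ?_
        rintro _ ⟨⟨S', T', hST', i, hi, rfl⟩, hy, -⟩
        have h1 := hT3 (S' :: T') ⟨hST', (hiff _).2 hy⟩
        obtain ⟨h2, h3⟩ := List.cons.inj h1
        subst h2 h3
        exact ⟨i, hi, rfl⟩

/-- (1) Every image of a weakly `θ`-refinable space under a perfect mapping is weakly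
`θ`-refinable. (2) More generally this holds for continuous closed surjections `f` such that the
set of the points of `f⁻¹(y)` which are not in its interior is compact, for every `y`. No
separation axioms are assumed. -/
theorem result :
    (∀ (X : Type u) (Y : Type v) [TopologicalSpace X] [TopologicalSpace Y] (f : X → Y),
      PerfectMapping f → WeaklyThetaRefinable X → WeaklyThetaRefinable Y) ∧
    (∀ (X : Type u) (Y : Type v) [TopologicalSpace X] [TopologicalSpace Y] (f : X → Y),
      Continuous f → Function.Surjective f → (∀ F : Set X, IsClosed F → IsClosed (f '' F)) →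
      (∀ y, IsCompact (f ⁻¹' {y} \ interior (f ⁻¹' {y}))) →
      WeaklyThetaRefinable X → WeaklyThetaRefinable Y) := by
  refine ⟨?_, fun X Y _ _ f h1 h2 h3 h4 h5 => core f h1 h2 h3 h4 h5⟩
  rintro X Y _ _ f ⟨h1, h2, h3, h4⟩ h5
  exact core f h1 h2 h3 (fun y => (h4 y).diff isOpen_interior) h5

end Pool.Agent.Results.MP_55e6a3_gt.PerfectImages
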